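import Pool.Agent.Helper99.LZ.Bridge

/-! Packet MT-BR2: levels. -/

set_option autoImplicit false

open Finset Filter Topology

namespace Pool.Agent.Helper86.LZ

open Pool.Agent.Helper99.LZ
open Pool.Agent.Helper52.C2 (Tg Fam Dir pre quad pwin1)

/-- the parameters among the directions with `W` -/
def emb {E : Type} : Dir E → Dir (Option E)
  | .X => .X
  | .Y => .Y
  | .V e => .V (some e)

/-- extension by `w` in the direction `W` -/
def ex {E : Type} (u : Dir E → ℝ) (w : ℝ) : Dir (Option E) → ℝ
  | .X => u .X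
  | .Y => u .Y
  | .V none => w
  | .V (some e) => u (.V e)

theorem ex_emb {E : Type} (u : Dir E → ℝ) (w : ℝ) (a : Dir E) : ex u w (emb a) = u a := by
  cases a <;> rfl

theorem sum_dir {J : Type} [Fintype J] (F : Dir J → ℝ) :
    ∑ d, F d = F .X + F .Y + ∑ k, F (.V k) := by
  let e : Option (Option J) ≃ Dir J :=
    { toFun := fun o => match o with
        | none => Dir.X
        | some none => Dir.Y
        | some (some k) => Dir.V k
      invFun := fun d => match d with
        | .X => none
        | .Y => some none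
        | .V k => some (some k)
      left_inv := by rintro (_ | _ | k) <;> rfl
      right_inv := by rintro (_ | _ | k) <;> rfl }
  rw [← Equiv.sum_comp e F, Fintype.sum_option, Fintype.sum_option, ← add_assoc]
  rfl

theorem sum_emb {E : Type} [Fintype E] (F : Dir (Option E) → ℝ) :
    ∑ d, F d = F (.V none) + ∑ a : Dir E, F (emb a) := by
  rw [sum_dir, sum_dir, Fintype.sum_option]
  simp only [emb]
  ring

variable {E : Type} [Fintype E] [DecidableEq E]

theorem bil_apply {ι : Type} [Fintype ι] (M : ι → ι → ℝ) (u v : ι → ℝ) :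
    bil M u v = ∑ a, ∑ b, u a * M a b * v b := rfl

theorem bil_ex (M : Dir (Option E) → Dir (Option E) → ℝ) (u v : Dir E → ℝ) (w w' : ℝ) :
    bil M (ex u w) (ex v w') = w * M (.V none) (.V none) * w'
      + ∑ b : Dir E, w * M (.V none) (emb b) * v b
      + ∑ a : Dir E, (u a * M (emb a) (.V none) * w' + ∑ b : Dir E, u a * M (emb a) (emb b) * v b) := by
  rw [bil_apply, sum_emb]
  congr 1
  · rw [sum_emb]
    congr 1
    refine Finset.sum_congr rfl fun b _ => ?_
    rw [ex_emb]
    rfl
  · refine Finset.sum_congr rfl fun a _ => ?_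
    rw [sum_emb, ex_emb]
    congr 1
    refine Finset.sum_congr rfl fun b _ => ?_
    rw [ex_emb]

theorem win_symm {A : Fam E} (hA : A.Good) (n : ℕ) (i : ℤ) (a b : Dir (Option E)) :
    A.win n i a b = A.win n i b a := by
  rcases a with _ | _ | (_ | e) <;> rcases b with _ | _ | (_ | e') <;> try rfl
  exact hA.symm e e' n i

theorem win_emb (A : Fam E) {n : ℕ} {p q : ℤ} (h : p - q + 2 = n) (a b : Dir E) :
    A.win n p (emb a) (emb b) = famEntry A p q a b := by
  cases a <;> cases b <;> simp [emb, Fam.win, famEntry, h]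

theorem win_W (A : Fam E) {n : ℕ} {p q : ℤ} (h : p - q + 2 = n) (a : Dir E) :
    A.win n p (emb a) (.V none) = cP A p a - cQ A q a := by
  have e1 : p + 1 - ((n : ℤ) - 1) = q := by omega
  have e2 : p - ((n : ℤ) - 1) = q - 1 := by omega
  cases a <;> simp only [emb, Fam.win, cP, cQ, Tg.h, e1, e2]

theorem win_W' (A : Fam E) {n : ℕ} {p q : ℤ} (h : p - q + 2 = n) (a : Dir E) :
    A.win n p (.V none) (emb a) = cP A p a - cQ A q a := by
  rw [← win_W A h]
  cases a <;> rfl

theorem P_apply (A : Fam E) (p : ℤ) (v : Dir E → ℝ) :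
    (famCtx A).P p v = ∑ a, cP A p a * v a := by
  show (∑ a, cP A p a • LinearMap.proj (R := ℝ) (φ := fun _ : Dir E => ℝ) a) v = _
  simp only [LinearMap.sum_apply, LinearMap.smul_apply, LinearMap.proj_apply, smul_eq_mul]

theorem Q_apply (A : Fam E) (q : ℤ) (v : Dir E → ℝ) :
    (famCtx A).Q q v = ∑ a, cQ A q a * v a := by
  show (∑ a, cQ A q a • LinearMap.proj (R := ℝ) (φ := fun _ : Dir E => ℝ) a) v = _
  simp only [LinearMap.sum_apply, LinearMap.smul_apply, LinearMap.proj_apply, smul_eq_mul]

theorem PQ_apply (A : Fam E) (p q : ℤ) (v : Dir E → ℝ) :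
    (famCtx A).P p v - (famCtx A).Q q v = ∑ a, (cP A p a - cQ A q a) * v a := by
  rw [P_apply, Q_apply, ← Finset.sum_sub_distrib]
  exact Finset.sum_congr rfl fun a _ => by ring

theorem H_apply (A : Fam E) (p q : ℤ) :
    (famCtx A).pr.H p q = pre A.S.L p - pre A.S.R q := by
  have h1 : (famCtx A).P p (famCtx A).Y = pre A.S.L p := by
    rw [P_apply]
    show ∑ a, cP A p a * (Pi.single (Dir.Y : Dir E) (1 : ℝ) : Dir E → ℝ) a = _
    rw [Finset.sum_eq_single (Dir.Y : Dir E)]
    · rw [Pi.single_eq_same, mul_one]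
      rfl
    · intro b _ hb
      rw [Pi.single_eq_of_ne hb, mul_zero]
    · intro h
      exact absurd (Finset.mem_univ _) h
  have h2 : (famCtx A).Q q (famCtx A).X = pre A.S.R q := by
    rw [Q_apply]
    show ∑ a, cQ A q a * (Pi.single (Dir.X : Dir E) (1 : ℝ) : Dir E → ℝ) a = _
    rw [Finset.sum_eq_single (Dir.X : Dir E)]
    · rw [Pi.single_eq_same, mul_one]
      rfl
    · intro b _ hb
      rw [Pi.single_eq_of_ne hb, mul_zero]
    · intro h
      exact absurd (Finset.mem_univ _) h
  show (famCtx A).P p (famCtx A).Y - (famCtx A).Q q (famCtx A).X = _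
  rw [h1, h2]

theorem win_WW (A : Fam E) {n : ℕ} {p q : ℤ} (h : p - q + 2 = n) (hn : 1 ≤ n) :
    A.win n p (.V none) (.V none) = (famCtx A).g p q := by
  have hd : A.win n p (.V none) (.V none)
      = if n = 1 then max (A.S.h (-1) p) 0 else A.S.h ((n : ℤ) - 2) p := rfl
  rw [hd]
  unfold Ctx.g
  by_cases h1 : n = 1
  · have h2 : ¬ q ≤ p := by omega
    rw [if_pos h1, if_neg h2]
    have h3 : p = q - 1 := by omega
    rw [h3]
    rfl
  · have h2 : q ≤ p := by omega
    rw [if_neg h1, if_pos h2, H_apply]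
    unfold Tg.h
    have h3 : p - ((n : ℤ) - 2) = q := by omega
    rw [h3]

theorem full_eq (A : Fam E) {n : ℕ} {p q : ℤ} (h : p - q + 2 = n) (hn : 1 ≤ n)
    (x y : (Dir E → ℝ) × ℝ) :
    (famCtx A).full p q x y = bil (A.win n p) (ex x.1 x.2) (ex y.1 y.2) := by
  rw [bil_ex]
  simp only [win_emb A h, win_W A h, win_W' A h, win_WW A h hn]
  have h0 : (famCtx A).full p q x y = (famCtx A).D p q x.1 y.1
      + x.2 * ((famCtx A).P p y.1 - (famCtx A).Q q y.1)
      + y.2 * ((famCtx A).P p x.1 - (famCtx A).Q q x.1) + x.2 * y.2 * (famCtx A).g p q := rfl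
  rw [h0, PQ_apply, PQ_apply, Finset.sum_add_distrib]
  have h1 : (famCtx A).D p q x.1 y.1
      = ∑ a : Dir E, ∑ b : Dir E, x.1 a * famEntry A p q a b * y.1 b := rfl
  have h2 : x.2 * ∑ a : Dir E, (cP A p a - cQ A q a) * y.1 a
      = ∑ b : Dir E, x.2 * (cP A p b - cQ A q b) * y.1 b := by
    rw [Finset.mul_sum]
    exact Finset.sum_congr rfl fun a _ => by ring
  have h3 : y.2 * ∑ a : Dir E, (cP A p a - cQ A q a) * x.1 a
      = ∑ a : Dir E, x.1 a * (cP A p a - cQ A q a) * y.2 := by
    rw [Finset.mul_sum]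
    exact Finset.sum_congr rfl fun a _ => by ring
  rw [h1, h2, h3]
  ring

theorem D_eq (A : Fam E) (q : ℤ) (u v : Dir E → ℝ) :
    (famCtx A).D (q - 2) q u v = bil (A.win 0 (q - 2)) (ex u 0) (ex v 0) := by
  rw [bil_ex]
  have h : (q - 2) - q + 2 = ((0 : ℕ) : ℤ) := by push_cast; ring
  simp only [win_emb A h, zero_mul, mul_zero, zero_add, Finset.sum_const_zero]
  rfl

theorem brl (h : StmtOPE) : StmtBRL := by
  intro E _ _ A hA
  refine ⟨fun q => ?_, fun p q hpq => ?_⟩
  · have h1 := (h (Dir (Option E)) _ (A.win 0 (q - 2)) (win_symm hA 0 (q - 2))).1 (hA.win 0 (q - 2))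
    intro u v huv
    rw [D_eq] at huv
    rw [D_eq, D_eq, D_eq]
    refine h1 (ex u 0) (ex v 0) ?_ ?_ huv
    · intro a ha
      rcases a with _ | _ | (_ | e)
      · exact absurd trivial ha
      · exact absurd trivial ha
      · rfl
      · exact absurd trivial ha
    · intro a ha
      rcases a with _ | _ | (_ | e)
      · exact absurd trivial ha
      · exact absurd trivial ha
      · rfl
      · exact absurd trivial ha
  · obtain ⟨n, hn⟩ := Int.eq_ofNat_of_zero_le (show 0 ≤ p - q + 2 by omega)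
    have hn1 : 1 ≤ n := by omega
    have h1 := (h (Dir (Option E)) _ (A.win n p) (win_symm hA n p)).1 (hA.win n p)
    intro u v huv
    rw [full_eq A hn hn1] at huv
    rw [full_eq A hn hn1, full_eq A hn hn1, full_eq A hn hn1]
    refine h1 _ _ ?_ ?_ huv
    · intro a ha
      rcases a with _ | _ | (_ | e)
      · exact absurd trivial ha
      · exact absurd trivial ha
      · exact absurd hn1 ha
      · exact absurd trivial ha
    · intro a ha
      rcases a with _ | _ | (_ | e)
      · exact absurd trivial ha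
      · exact absurd trivial ha
      · exact absurd hn1 ha
      · exact absurd trivial ha

end Pool.Agent.Helper86.LZ
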