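import Pool.Agent.Helper99.LZ.Goals

/-! Packet MT-LIM0: the limit `δ → 0`. -/

set_option autoImplicit false

open Finset Filter Topology

namespace Pool.Agent.Helper86.LZ

open Pool.Agent.Helper99.LZ

variable {V : Type} [AddCommGroup V] [Module ℝ V]

theorem prod_apply (S : Ctx V) (m : ℤ → ℤ → ℝ) (a b n : ℤ) (u v : V) :
    S.prod m a b n u v = ∑ i ∈ Icc a b, ∑ i' ∈ Icc a b, m i i' * S.D (n - 2 - i) (n - i') u v := by
  unfold Ctx.prod
  simp only [LinearMap.sum_apply, LinearMap.smul_apply, smul_eq_mul]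

theorem prod_zst (S : Ctx V) (m : ℤ → ℤ → ℝ) (a b n : ℤ) (δ : ℝ) (u v : V) :
    (S.zst δ).prod m a b n u v = S.prod m a b n u v +
      δ * ∑ i ∈ Icc a b, ∑ i' ∈ Icc a b, m i i' * S.D (n - 2 - i) (n - i' - 1) u v := by
  rw [prod_apply, prod_apply, Finset.mul_sum, ← Finset.sum_add_distrib]
  refine Finset.sum_congr rfl fun i _ => ?_
  rw [Finset.mul_sum, ← Finset.sum_add_distrib]
  refine Finset.sum_congr rfl fun i' _ => ?_
  have h : (S.zst δ).D (n - 2 - i) (n - i') u v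
      = S.D (n - 2 - i) (n - i') u v + δ * S.D (n - 2 - i) (n - i' - 1) u v := by
    show (S.D (n - 2 - i) (n - i') + δ • S.D (n - 2 - i) (n - i' - 1)) u v = _
    simp only [LinearMap.add_apply, LinearMap.smul_apply, smul_eq_mul]
  rw [h]
  ring

theorem tendsto_zst (S : Ctx V) (m : ℤ → ℤ → ℝ) (a b n : ℤ) (u v : V) :
    Tendsto (fun δ : ℝ => (S.zst δ).prod m a b n u v) (𝓝[>] 0) (𝓝 (S.prod m a b n u v)) := by
  have h1 : Tendsto (fun δ : ℝ => S.prod m a b n u v +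
      δ * ∑ i ∈ Icc a b, ∑ i' ∈ Icc a b, m i i' * S.D (n - 2 - i) (n - i' - 1) u v) (𝓝[>] 0)
      (𝓝 (S.prod m a b n u v +
      0 * ∑ i ∈ Icc a b, ∑ i' ∈ Icc a b, m i i' * S.D (n - 2 - i) (n - i' - 1) u v)) := by
    refine Tendsto.mono_left ?_ nhdsWithin_le_nhds
    exact ((continuous_const.add (continuous_id.mul continuous_const)).tendsto 0)
  rw [zero_mul, add_zero] at h1
  refine h1.congr fun δ => ?_
  rw [prod_zst]

theorem master0 (h1 : StmtMASTER) (h2 : StmtZST) : StmtMASTER0 := by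
  intro V _ _ S T a b a₂ b₂ n x m hS hT hm u v huu
  have hev : ∀ᶠ δ : ℝ in 𝓝[>] 0, (S.zst δ).prod m a b n u u * (S.zst δ).prod m a b n v v
      ≤ ((S.zst δ).prod m a b n u v) ^ 2 := by
    have e1 : ∀ᶠ δ : ℝ in 𝓝[>] 0, 0 < (S.zst δ).prod m a b n u u :=
      (tendsto_zst S m a b n u u).eventually (lt_mem_nhds huu)
    filter_upwards [e1, self_mem_nhdsWithin] with δ hδ1 hδ2
    exact h1 V (S.zst δ) T a b a₂ (b₂ + 1) n m (h2 V S a₂ b₂ x δ hS hδ2) hT hm u v hδ1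
  exact le_of_tendsto_of_tendsto
    ((tendsto_zst S m a b n u u).mul (tendsto_zst S m a b n v v))
    ((tendsto_zst S m a b n u v).pow 2) hev

end Pool.Agent.Helper86.LZ
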